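import Mathlib

set_option autoImplicit false

namespace Pool.Agent.Lib.MP_6afe75_al

/-- Seven commuting equivalence relations behaving like the lines of a projective plane. -/
structure PlaneRep {B : Type} (T r1 r2 r3 r12 r23 r13 r123 : Setoid B) : Prop where
  l1 : r1 ≤ T
  l2 : r2 ≤ T
  l3 : r3 ≤ T
  l123 : r123 ≤ T
  d12 : r1 ⊓ r2 ≤ r12
  e12 : r12 ⊓ r3 ≤ r123
  g12 : r123 ⊓ r3 ≤ r12
  f3 : r12 ⊓ r123 ≤ r3
  d23 : r2 ⊓ r3 ≤ r23
  e23 : r23 ⊓ r1 ≤ r123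
  g23 : r123 ⊓ r1 ≤ r23
  f1 : r23 ⊓ r123 ≤ r1
  d13 : r1 ⊓ r3 ≤ r13
  e13 : r13 ⊓ r2 ≤ r123
  g13 : r123 ⊓ r2 ≤ r13
  f2 : r13 ⊓ r123 ≤ r2
  c12 : ∀ a b, T a b → ∃ c, r1 a c ∧ r2 c b
  c3 : ∀ a b, T a b → ∃ c, (r1 ⊓ r2) a c ∧ r3 c b
  x1 : ∀ a b, T a b → ∃ c, (r2 ⊓ r3) a c ∧ r123 c b
  x2 : ∀ a b, T a b → ∃ c, (r1 ⊓ r3) a c ∧ r123 c b
  x3 : ∀ a b, T a b → ∃ c, (r1 ⊓ r2) a c ∧ r123 c b

variable {B : Type} {T r1 r2 r3 r12 r23 r13 r123 : Setoid B}

/-- The points in the class of `o`. -/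
abbrev Cls (T : Setoid B) (o : B) : Type := {c : B // T o c}

/-- The set of `r`-classes in the `T`-class of `o`. -/
abbrev Coord (T r : Setoid B) (o : B) : Type :=
  Quotient (Setoid.comap (Subtype.val : Cls T o → B) r)

theorem exists_pt (h : PlaneRep T r1 r2 r3 r12 r23 r13 r123) {o : B} (p q s : Cls T o) :
    ∃ c : Cls T o, r1 c.1 p.1 ∧ r2 c.1 q.1 ∧ r3 c.1 s.1 := by
  obtain ⟨c0, h1, h2⟩ := h.c12 p.1 q.1 (T.trans (T.symm p.2) q.2)
  have hc0 : T o c0 := T.trans p.2 (h.l1 h1)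
  obtain ⟨c, h3, h4⟩ := h.c3 c0 s.1 (T.trans (T.symm hc0) s.2)
  have h5 : r1 c0 c := h3.1
  have h6 : r2 c0 c := h3.2
  exact ⟨⟨c, T.trans hc0 (h.l1 h5)⟩, r1.trans (r1.symm h5) (r1.symm h1),
    r2.trans (r2.symm h6) h2, h4⟩

/-- The common coordinate on the class of `o`, obtained from a triple of points. -/
theorem exists_T (h : PlaneRep T r1 r2 r3 r12 r23 r13 r123) (o : B) :
    ∃ F : Coord T r123 o → Coord T r123 o → Coord T r123 o → Coord T r123 o,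
      ∃ z : Coord T r123 o,
      (∀ a, F a z z = a) ∧ (∀ b, F z b z = b) ∧ (∀ c, F z z c = c) ∧
      (∀ a b c, F a b c = F (F a b z) z c) ∧
      (∀ a b c, F a b c = F a (F z b c) z) ∧
      (∀ a b c, F a b c = F (F a z c) b z) ∧
      (∀ a b b', F a b z = F a b' z → b = b') ∧
      (r12 ⊓ r23 ≤ r13 → ∀ a b c a' b' c', F a b z = F a' b' z → F z b c = F z b' c' →
        F a z c = F a' z c') ∧
      (r12 ⊓ r23 ⊓ r13 ≤ r1 → ∀ a b c a' b' c', F a b z = F a' b' z → F z b c = F z b' c' →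
        F a z c = F a' z c' → a = a') := by
  classical
  let oo : Cls T o := ⟨o, T.refl o⟩
  let cl : Cls T o → Coord T r123 o := fun p => Quotient.mk _ p
  have cl_eq : ∀ p q : Cls T o, cl p = cl q ↔ r123 p.1 q.1 := fun p q => Quotient.eq
  have rall : ∀ p q : Cls T o, r1 p.1 q.1 → r2 p.1 q.1 → r3 p.1 q.1 → r123 p.1 q.1 := by
    intro p q h1 h2 h3
    exact h.e12 ⟨h.d12 ⟨h1, h2⟩, h3⟩
  -- coordinate 1
  have ex1 : ∀ p : Cls T o, ∃ c : Cls T o, r1 c.1 p.1 ∧ r2 c.1 o ∧ r3 c.1 o :=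
    fun p => exists_pt h p oo oo
  have ex2 : ∀ p : Cls T o, ∃ c : Cls T o, r1 c.1 o ∧ r2 c.1 p.1 ∧ r3 c.1 o :=
    fun p => exists_pt h oo p oo
  have ex3 : ∀ p : Cls T o, ∃ c : Cls T o, r1 c.1 o ∧ r2 c.1 o ∧ r3 c.1 p.1 :=
    fun p => exists_pt h oo oo p
  choose c1 hc1 using ex1
  choose c2 hc2 using ex2
  choose c3 hc3 using ex3
  have k1 : ∀ p q : Cls T o, cl (c1 p) = cl (c1 q) ↔ r1 p.1 q.1 := by
    intro p q
    obtain ⟨a1, a2, a3⟩ := hc1 p
    obtain ⟨b1, b2, b3⟩ := hc1 q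
    have h2 : r2 (c1 p).1 (c1 q).1 := r2.trans a2 (r2.symm b2)
    have h3 : r3 (c1 p).1 (c1 q).1 := r3.trans a3 (r3.symm b3)
    rw [cl_eq]
    constructor
    · intro h0
      have : r1 (c1 p).1 (c1 q).1 := h.f1 ⟨h.d23 ⟨h2, h3⟩, h0⟩
      exact r1.trans (r1.symm a1) (r1.trans this b1)
    · intro h0
      exact rall _ _ (r1.trans a1 (r1.trans h0 (r1.symm b1))) h2 h3
  have k2 : ∀ p q : Cls T o, cl (c2 p) = cl (c2 q) ↔ r2 p.1 q.1 := by
    intro p q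
    obtain ⟨a1, a2, a3⟩ := hc2 p
    obtain ⟨b1, b2, b3⟩ := hc2 q
    have h1 : r1 (c2 p).1 (c2 q).1 := r1.trans a1 (r1.symm b1)
    have h3 : r3 (c2 p).1 (c2 q).1 := r3.trans a3 (r3.symm b3)
    rw [cl_eq]
    constructor
    · intro h0
      have : r2 (c2 p).1 (c2 q).1 := h.f2 ⟨h.d13 ⟨h1, h3⟩, h0⟩
      exact r2.trans (r2.symm a2) (r2.trans this b2)
    · intro h0
      exact rall _ _ h1 (r2.trans a2 (r2.trans h0 (r2.symm b2))) h3
  have k3 : ∀ p q : Cls T o, cl (c3 p) = cl (c3 q) ↔ r3 p.1 q.1 := by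
    intro p q
    obtain ⟨a1, a2, a3⟩ := hc3 p
    obtain ⟨b1, b2, b3⟩ := hc3 q
    have h1 : r1 (c3 p).1 (c3 q).1 := r1.trans a1 (r1.symm b1)
    have h2 : r2 (c3 p).1 (c3 q).1 := r2.trans a2 (r2.symm b2)
    rw [cl_eq]
    constructor
    · intro h0
      have : r3 (c3 p).1 (c3 q).1 := h.f3 ⟨h.d12 ⟨h1, h2⟩, h0⟩
      exact r3.trans (r3.symm a3) (r3.trans this b3)
    · intro h0
      exact rall _ _ h1 h2 (r3.trans a3 (r3.trans h0 (r3.symm b3)))
  -- on the axes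
  have s1 : ∀ p : Cls T o, r2 p.1 o → r3 p.1 o → cl (c1 p) = cl p := by
    intro p h2 h3
    obtain ⟨a1, a2, a3⟩ := hc1 p
    rw [cl_eq]
    exact rall _ _ a1 (r2.trans a2 (r2.symm h2)) (r3.trans a3 (r3.symm h3))
  have s2 : ∀ p : Cls T o, r1 p.1 o → r3 p.1 o → cl (c2 p) = cl p := by
    intro p h1 h3
    obtain ⟨a1, a2, a3⟩ := hc2 p
    rw [cl_eq]
    exact rall _ _ (r1.trans a1 (r1.symm h1)) a2 (r3.trans a3 (r3.symm h3))
  have s3 : ∀ p : Cls T o, r1 p.1 o → r2 p.1 o → cl (c3 p) = cl p := by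
    intro p h1 h2
    obtain ⟨a1, a2, a3⟩ := hc3 p
    rw [cl_eq]
    exact rall _ _ (r1.trans a1 (r1.symm h1)) (r2.trans a2 (r2.symm h2)) a3
  -- surjectivity
  have t1 : ∀ a : Coord T r123 o, ∃ p : Cls T o, cl (c1 p) = a := by
    intro a
    induction a using Quotient.inductionOn with
    | _ q =>
      obtain ⟨c, h1, h2⟩ := h.x1 o q.1 q.2
      have h1a : r2 o c := h1.1
      have h1b : r3 o c := h1.2
      refine ⟨⟨c, h.l2 h1a⟩, ?_⟩
      rw [s1 _ (r2.symm h1a) (r3.symm h1b)]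
      exact (cl_eq _ _).2 h2
  have t2 : ∀ a : Coord T r123 o, ∃ p : Cls T o, cl (c2 p) = a := by
    intro a
    induction a using Quotient.inductionOn with
    | _ q =>
      obtain ⟨c, h1, h2⟩ := h.x2 o q.1 q.2
      have h1a : r1 o c := h1.1
      have h1b : r3 o c := h1.2
      refine ⟨⟨c, h.l1 h1a⟩, ?_⟩
      rw [s2 _ (r1.symm h1a) (r3.symm h1b)]
      exact (cl_eq _ _).2 h2
  have t3 : ∀ a : Coord T r123 o, ∃ p : Cls T o, cl (c3 p) = a := by
    intro a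
    induction a using Quotient.inductionOn with
    | _ q =>
      obtain ⟨c, h1, h2⟩ := h.x3 o q.1 q.2
      have h1a : r1 o c := h1.1
      have h1b : r2 o c := h1.2
      refine ⟨⟨c, h.l1 h1a⟩, ?_⟩
      rw [s3 _ (r1.symm h1a) (r2.symm h1b)]
      exact (cl_eq _ _).2 h2
  have ept : ∀ a b c : Coord T r123 o, ∃ p : Cls T o,
      cl (c1 p) = a ∧ cl (c2 p) = b ∧ cl (c3 p) = c := by
    intro a b c
    obtain ⟨pa, rfl⟩ := t1 a
    obtain ⟨pb, rfl⟩ := t2 b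
    obtain ⟨pc, rfl⟩ := t3 c
    obtain ⟨p, h1, h2, h3⟩ := exists_pt h pa pb pc
    exact ⟨p, (k1 _ _).2 h1, (k2 _ _).2 h2, (k3 _ _).2 h3⟩
  choose pt hpt using ept
  let z : Coord T r123 o := cl oo
  have z1 : cl (c1 oo) = z := s1 oo (r2.refl o) (r3.refl o)
  have z2 : cl (c2 oo) = z := s2 oo (r1.refl o) (r3.refl o)
  have z3 : cl (c3 oo) = z := s3 oo (r1.refl o) (r2.refl o)
  -- comparison of points through coordinates
  have q1 : ∀ a b c a' b' c', a = a' → r1 (pt a b c).1 (pt a' b' c').1 := by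
    intro a b c a' b' c' e
    rw [← k1, (hpt a b c).1, (hpt a' b' c').1, e]
  have q2 : ∀ a b c a' b' c', b = b' → r2 (pt a b c).1 (pt a' b' c').1 := by
    intro a b c a' b' c' e
    rw [← k2, (hpt a b c).2.1, (hpt a' b' c').2.1, e]
  have q3 : ∀ a b c a' b' c', c = c' → r3 (pt a b c).1 (pt a' b' c').1 := by
    intro a b c a' b' c' e
    rw [← k3, (hpt a b c).2.2, (hpt a' b' c').2.2, e]
  have w1 : ∀ b c, r1 (pt z b c).1 o := by
    intro b c
    have : cl (c1 (pt z b c)) = cl (c1 oo) := by rw [(hpt z b c).1, z1]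
    exact (k1 _ _).1 this
  have w2 : ∀ a c, r2 (pt a z c).1 o := by
    intro a c
    have : cl (c2 (pt a z c)) = cl (c2 oo) := by rw [(hpt a z c).2.1, z2]
    exact (k2 _ _).1 this
  have w3 : ∀ a b, r3 (pt a b z).1 o := by
    intro a b
    have : cl (c3 (pt a b z)) = cl (c3 oo) := by rw [(hpt a b z).2.2, z3]
    exact (k3 _ _).1 this
  have v1 : ∀ a, cl (pt a z z) = a := by
    intro a
    rw [← s1 _ (w2 a z) (w3 a z), (hpt a z z).1]
  have v2 : ∀ a, cl (pt z a z) = a := by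
    intro a
    rw [← s2 _ (w1 a z) (w3 z a), (hpt z a z).2.1]
  have v3 : ∀ a, cl (pt z z a) = a := by
    intro a
    rw [← s3 _ (w1 z a) (w2 z a), (hpt z z a).2.2]
  -- the three derived coordinates
  have m12 : ∀ a b c a' b' c', cl (pt a b z) = cl (pt a' b' z) →
      r12 (pt a b c).1 (pt a' b' c').1 := by
    intro a b c a' b' c' e
    have e1 : r12 (pt a b c).1 (pt a b z).1 := h.d12 ⟨q1 _ _ _ _ _ _ rfl, q2 _ _ _ _ _ _ rfl⟩
    have e2 : r12 (pt a' b' c').1 (pt a' b' z).1 :=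
      h.d12 ⟨q1 _ _ _ _ _ _ rfl, q2 _ _ _ _ _ _ rfl⟩
    have e3 : r12 (pt a b z).1 (pt a' b' z).1 :=
      h.g12 ⟨(cl_eq _ _).1 e, q3 _ _ _ _ _ _ rfl⟩
    exact r12.trans e1 (r12.trans e3 (r12.symm e2))
  have m23 : ∀ a b c a' b' c', cl (pt z b c) = cl (pt z b' c') →
      r23 (pt a b c).1 (pt a' b' c').1 := by
    intro a b c a' b' c' e
    have e1 : r23 (pt a b c).1 (pt z b c).1 := h.d23 ⟨q2 _ _ _ _ _ _ rfl, q3 _ _ _ _ _ _ rfl⟩
    have e2 : r23 (pt a' b' c').1 (pt z b' c').1 :=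
      h.d23 ⟨q2 _ _ _ _ _ _ rfl, q3 _ _ _ _ _ _ rfl⟩
    have e3 : r23 (pt z b c).1 (pt z b' c').1 :=
      h.g23 ⟨(cl_eq _ _).1 e, q1 _ _ _ _ _ _ rfl⟩
    exact r23.trans e1 (r23.trans e3 (r23.symm e2))
  have m13 : ∀ a b c a' b' c', cl (pt a z c) = cl (pt a' z c') →
      r13 (pt a b c).1 (pt a' b' c').1 := by
    intro a b c a' b' c' e
    have e1 : r13 (pt a b c).1 (pt a z c).1 := h.d13 ⟨q1 _ _ _ _ _ _ rfl, q3 _ _ _ _ _ _ rfl⟩
    have e2 : r13 (pt a' b' c').1 (pt a' z c').1 :=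
      h.d13 ⟨q1 _ _ _ _ _ _ rfl, q3 _ _ _ _ _ _ rfl⟩
    have e3 : r13 (pt a z c).1 (pt a' z c').1 :=
      h.g13 ⟨(cl_eq _ _).1 e, q2 _ _ _ _ _ _ rfl⟩
    exact r13.trans e1 (r13.trans e3 (r13.symm e2))
  refine ⟨fun a b c => cl (pt a b c), z, v1, v2, v3, ?_, ?_, ?_, ?_, ?_, ?_⟩
  · intro a b c
    rw [cl_eq]
    refine h.e12 ⟨m12 _ _ _ _ _ _ ?_, q3 _ _ _ _ _ _ rfl⟩
    rw [v1]
  · intro a b c
    rw [cl_eq]
    refine h.e23 ⟨m23 _ _ _ _ _ _ ?_, q1 _ _ _ _ _ _ rfl⟩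
    rw [v2]
  · intro a b c
    rw [cl_eq]
    refine h.e13 ⟨m13 _ _ _ _ _ _ ?_, q2 _ _ _ _ _ _ rfl⟩
    rw [v1]
  · intro a b b' e
    have e1 : r2 (pt a b z).1 (pt a b' z).1 :=
      h.f2 ⟨h.d13 ⟨q1 _ _ _ _ _ _ rfl, q3 _ _ _ _ _ _ rfl⟩, (cl_eq _ _).1 e⟩
    rw [← (hpt a b z).2.1, ← (hpt a b' z).2.1]
    exact (k2 _ _).2 e1
  · intro hF a b c a' b' c' e1 e2
    rw [cl_eq]
    have f13 : r13 (pt a b c).1 (pt a' b' c').1 := hF ⟨m12 _ _ _ _ _ _ e1, m23 _ _ _ _ _ _ e2⟩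
    have e3 : r13 (pt a b c).1 (pt a z c).1 := h.d13 ⟨q1 _ _ _ _ _ _ rfl, q3 _ _ _ _ _ _ rfl⟩
    have e4 : r13 (pt a' b' c').1 (pt a' z c').1 :=
      h.d13 ⟨q1 _ _ _ _ _ _ rfl, q3 _ _ _ _ _ _ rfl⟩
    exact h.e13 ⟨r13.trans (r13.symm e3) (r13.trans f13 e4), q2 _ _ _ _ _ _ rfl⟩
  · intro hF a b c a' b' c' e1 e2 e3
    have f1 : r1 (pt a b c).1 (pt a' b' c').1 :=
      hF ⟨⟨m12 _ _ _ _ _ _ e1, m23 _ _ _ _ _ _ e2⟩, m13 _ _ _ _ _ _ e3⟩
    rw [← (hpt a b c).1, ← (hpt a' b' c').1]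
    exact (k1 _ _).2 f1

/-- The group structure, packaged. -/
theorem exists_group {X : Type} [Finite X] (F : X → X → X → X) (z : X)
    (h1 : ∀ a, F a z z = a) (h2 : ∀ b, F z b z = b) (h3 : ∀ c, F z z c = c)
    (h4 : ∀ a b c, F a b c = F (F a b z) z c)
    (h5 : ∀ a b c, F a b c = F a (F z b c) z)
    (h6 : ∀ a b c, F a b c = F (F a z c) b z)
    (h7 : ∀ a b b', F a b z = F a b' z → b = b') :
    ∃ _ : AddCommGroup X, (∀ a b : X, F a b z = a + b) ∧ (∀ a b : X, F a z b = a + b) ∧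
      (∀ a b : X, F z a b = a + b) ∧ z = 0 := by
  classical
  have e1 : ∀ a c, F a z c = F a c z := by
    intro a c
    rw [h5 a z c, h3]
  have e2 : ∀ b c, F z b c = F b c z := by
    intro b c
    rw [h4 z b c, h2, e1]
  have assoc : ∀ a b c, F (F a b z) c z = F a (F b c z) z := by
    intro a b c
    have := h4 a b c
    rw [h5 a b c, e2, e1] at this
    exact this.symm
  have comm : ∀ a b, F a b z = F b a z := by
    intro a b
    have h := h6 z b a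
    rw [h3, e2] at h
    exact h.symm
  have hinv : ∀ a, ∃ b, F b a z = z := by
    intro a
    have hinj : Function.Injective (fun b => F a b z) := fun b b' e => h7 a b b' e
    have hsurj := Finite.surjective_of_injective hinj
    obtain ⟨b, hb⟩ := hsurj z
    exact ⟨b, by rw [comm]; exact hb⟩
  choose ng hng using hinv
  let iA : Add X := ⟨fun a b => F a b z⟩
  let iZ : Zero X := ⟨z⟩
  let iN : Neg X := ⟨ng⟩
  let G0 : AddGroup X := AddGroup.ofLeftAxioms assoc h2 hng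
  let G : AddCommGroup X := { G0 with add_comm := comm }
  exact ⟨G, fun a b => rfl, fun a b => e1 a b, fun a b => e2 a b, rfl⟩

theorem even_card [Finite B] (h : PlaneRep T r1 r2 r3 r12 r23 r13 r123)
    (hF : r12 ⊓ r23 ≤ r13) (o : B) (hne : ∃ c, T o c ∧ ¬ r123 o c) :
    2 ∣ Nat.card (Coord T r123 o) := by
  obtain ⟨F, z, h1, h2, h3, h4, h5, h6, h7, h8, -⟩ := exists_T h o
  obtain ⟨G, g1, g2, g3, g4⟩ := exists_group F z h1 h2 h3 h4 h5 h6 h7
  have key : ∀ t : Coord T r123 o, t + t = 0 := by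
    intro t
    have := h8 hF t z t z t z (by rw [h1, h2]) (by rw [h3, h2])
    rw [g2, g2, g4] at this
    simpa using this
  obtain ⟨c, hc, hnc⟩ := hne
  let x : Coord T r123 o := Quotient.mk _ ⟨c, hc⟩
  let y : Coord T r123 o := Quotient.mk _ ⟨o, T.refl o⟩
  have hxy : y ≠ x := by
    intro e
    have e' : (Setoid.comap (Subtype.val : Cls T o → B) r123) ⟨o, T.refl o⟩ ⟨c, hc⟩ :=
      Quotient.exact e
    exact hnc e'
  have ht : y - x ≠ 0 := sub_ne_zero.2 hxy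
  have hord : addOrderOf (y - x) = 2 := by
    apply addOrderOf_eq_prime
    · rw [two_nsmul, key]
    · exact ht
  rw [← hord]
  exact addOrderOf_dvd_natCard _

theorem odd_card [Finite B] (h : PlaneRep T r1 r2 r3 r12 r23 r13 r123)
    (hF : r12 ⊓ r23 ⊓ r13 ≤ r1) (o : B) :
    ¬ 2 ∣ Nat.card (Coord T r123 o) := by
  obtain ⟨F, z, h1, h2, h3, h4, h5, h6, h7, -, h9⟩ := exists_T h o
  obtain ⟨G, g1, g2, g3, g4⟩ := exists_group F z h1 h2 h3 h4 h5 h6 h7
  intro hdvd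
  have : Fact (Nat.Prime 2) := ⟨Nat.prime_two⟩
  obtain ⟨t, ht⟩ := exists_prime_addOrderOf_dvd_card' 2 hdvd
  have htt : t + t = 0 := by
    have := addOrderOf_nsmul_eq_zero t
    rw [ht, two_nsmul] at this
    exact this
  have := h9 hF t z t z t z (by rw [h1, h2]) (by rw [h3, h2])
    (by rw [g2, g2, htt, g4, add_zero])
  rw [this, g4] at ht
  simp at ht

/-- The classes of the bottom in the atom `p` correspond to the classes of a line. -/
theorem card_coord_eq (T r p l : Setoid B) (o : B) (hpT : p ≤ T) (hlr : l ≤ r)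
    (hpr : p ⊓ r ≤ l) (hc : ∀ c, T o c → ∃ c', p o c' ∧ r c' c) :
    Nat.card (Coord p l o) = Nat.card (Coord T r o) := by
  let f : Coord p l o → Coord T r o :=
    Quotient.map (fun c : Cls p o => (⟨c.1, hpT c.2⟩ : Cls T o)) (fun _ _ h => hlr h)
  apply Nat.card_congr
  apply Equiv.ofBijective f
  constructor
  · intro x y
    induction x using Quotient.inductionOn with
    | _ x =>
      induction y using Quotient.inductionOn with
      | _ y =>
        intro h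
        have h1 : (Setoid.comap (Subtype.val : Cls T o → B) r) ⟨x.1, hpT x.2⟩ ⟨y.1, hpT y.2⟩ :=
          Quotient.exact h
        apply Quotient.sound
        exact hpr ⟨p.trans (p.symm x.2) y.2, h1⟩
  · intro y
    induction y using Quotient.inductionOn with
    | _ y =>
      obtain ⟨c', h1, h2⟩ := hc y.1 y.2
      refine ⟨Quotient.mk _ ⟨c', h1⟩, ?_⟩
      apply Quotient.sound
      exact h2

section Hom

variable {K : Type} [Field K]

/-- The kernel of the linear form with coefficients `a, b, c`. -/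
def Hp (a b c : K) : Submodule K (Fin 3 → K) where
  carrier := {v | a * v 0 + b * v 1 + c * v 2 = 0}
  add_mem' := by
    intro v w hv hw
    simp only [Set.mem_ofPred_eq, Pi.add_apply] at hv hw ⊢
    linear_combination hv + hw
  zero_mem' := by simp
  smul_mem' := by
    intro t v hv
    simp only [Set.mem_ofPred_eq, Pi.smul_apply, smul_eq_mul] at hv ⊢
    linear_combination t * hv

theorem mem_Hp {a b c : K} {v : Fin 3 → K} : v ∈ Hp a b c ↔ a * v 0 + b * v 1 + c * v 2 = 0 :=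
  Iff.rfl

theorem planeRep_of_hom (G : LatticeHom (Submodule K (Fin 3 → K)) (Setoid B))
    (hG : ∀ (x y : Submodule K (Fin 3 → K)) (a b : B),
      (G (x ⊔ y)) a b ↔ ∃ c : B, (G x) a c ∧ (G y) c b) :
    PlaneRep (G ⊤) (G (Hp 1 0 0)) (G (Hp 0 1 0)) (G (Hp 0 0 1)) (G (Hp 1 1 0)) (G (Hp 0 1 1))
      (G (Hp 1 0 1)) (G (Hp 1 1 1)) := by
  have mono : ∀ {x y : Submodule K (Fin 3 → K)}, x ≤ y → G x ≤ G y := fun h =>
    OrderHomClass.mono G h
  have key : ∀ {x y w : Submodule K (Fin 3 → K)}, x ⊓ y ≤ w → G x ⊓ G y ≤ G w := by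
    intro x y w h
    rw [← map_inf]
    exact mono h
  have key2 : ∀ (x y : Submodule K (Fin 3 → K)), x ⊔ y = ⊤ → ∀ a b, (G ⊤) a b →
      ∃ c, (G x) a c ∧ (G y) c b := by
    intro x y h a b hab
    rw [← h] at hab
    exact (hG x y a b).1 hab
  have key3 : ∀ (x y w : Submodule K (Fin 3 → K)), (x ⊓ y) ⊔ w = ⊤ → ∀ a b, (G ⊤) a b →
      ∃ c, (G x ⊓ G y) a c ∧ (G w) c b := by
    intro x y w h a b hab
    rw [← map_inf]
    exact key2 _ _ h a b hab
  refine ⟨mono le_top, mono le_top, mono le_top, mono le_top, key ?_, key ?_, key ?_, key ?_,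
    key ?_, key ?_, key ?_, key ?_, key ?_, key ?_, key ?_, key ?_, key2 _ _ ?_, key3 _ _ _ ?_,
    key3 _ _ _ ?_, key3 _ _ _ ?_, key3 _ _ _ ?_⟩
  iterate 12
    rintro v ⟨h1, h2⟩
    rw [SetLike.mem_coe, mem_Hp] at h1 h2
    rw [mem_Hp]
    first
      | linear_combination h1 + h2
      | linear_combination h1 - h2
      | linear_combination h2 - h1
  · rw [eq_top_iff]
    intro v _
    rw [Submodule.mem_sup]
    refine ⟨![0, v 1, v 2], by simp [mem_Hp], ![v 0, 0, 0], by simp [mem_Hp], ?_⟩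
    ext i
    fin_cases i <;> simp
  · rw [eq_top_iff]
    intro v _
    rw [Submodule.mem_sup]
    refine ⟨![0, 0, v 2], by simp [mem_Hp], ![v 0, v 1, 0], by simp [mem_Hp], ?_⟩
    ext i
    fin_cases i <;> simp
  · rw [eq_top_iff]
    intro v _
    rw [Submodule.mem_sup]
    refine ⟨![v 0 + v 1 + v 2, 0, 0], by simp [mem_Hp], ![- (v 1 + v 2), v 1, v 2], ?_, ?_⟩
    · simp [mem_Hp]
    · ext i
      fin_cases i
      · simp only [Fin.zero_eta, Fin.isValue, Pi.add_apply, Matrix.cons_val_zero]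
        ring
      · simp
      · simp
  · rw [eq_top_iff]
    intro v _
    rw [Submodule.mem_sup]
    refine ⟨![0, v 0 + v 1 + v 2, 0], by simp [mem_Hp], ![v 0, - (v 0 + v 2), v 2], ?_, ?_⟩
    · simp [mem_Hp]
    · ext i
      fin_cases i
      · simp
      · simp only [Fin.mk_one, Fin.isValue, Pi.add_apply, Matrix.cons_val_one,
          Matrix.cons_val_zero]
        ring
      · simp
  · rw [eq_top_iff]
    intro v _
    rw [Submodule.mem_sup]
    refine ⟨![0, 0, v 0 + v 1 + v 2], by simp [mem_Hp], ![v 0, v 1, - (v 0 + v 1)], ?_, ?_⟩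
    · simp [mem_Hp]
    · ext i
      fin_cases i
      · simp
      · simp
      · simp
        ring

end Hom

end Pool.Agent.Lib.MP_6afe75_al
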