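import Mathlib
import Pool.Agent.Lib.MP_6afe75_al.FinPart

set_option autoImplicit false

namespace Pool.Agent.Lib.MP_6afe75_al

abbrev V2 : Type := Fin 3 → ZMod 2
abbrev V3 : Type := Fin 3 → ZMod 3

instance : Fact (Nat.Prime 2) := ⟨Nat.prime_two⟩
instance : Fact (Nat.Prime 3) := ⟨Nat.prime_three⟩

theorem exists_theta : Nonempty ((ℕ → ZMod 2) ≃ (ℕ → ZMod 3)) := by
  rw [← Cardinal.eq]
  have h2 : Cardinal.mk (ℕ → ZMod 2) = 2 ^ Cardinal.aleph0 := by simp
  have h3 : Cardinal.mk (ℕ → ZMod 3) = 3 ^ Cardinal.aleph0 := by simp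
  rw [h2, h3]
  have := Cardinal.nat_power_eq (c := Cardinal.aleph0) le_rfl (n := 3) (by norm_num)
  rw [← this]
  norm_num

/-- A bijection between an infinite vector space over `F_2` and one over `F_3`. -/
noncomputable def θ : (ℕ → ZMod 2) ≃ (ℕ → ZMod 3) := Classical.choice exists_theta

/-- The linear form on `F_2 ^ 3`. -/
def lam (v : V2) : ZMod 2 := v 0 + v 1 + v 2

/-- The base set of the infinite representation. -/
def A : Type := {q : (ℕ → V2) × (ℕ → V3) // θ (fun i => lam (q.1 i)) = fun i => q.2 i 0}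

/-- The equivalence relations. -/
def R (x : Submodule (ZMod 2) V2) (y : Submodule (ZMod 3) V3) : Setoid A where
  r q q' := (∀ i, q.1.1 i - q'.1.1 i ∈ x) ∧ (∀ i, q.1.2 i - q'.1.2 i ∈ y)
  iseqv := by
    refine ⟨fun q => ⟨fun i => by simp, fun i => by simp⟩, fun {q q'} h => ⟨fun i => ?_, fun i => ?_⟩,
      fun {q q' q''} h h' => ⟨fun i => ?_, fun i => ?_⟩⟩
    · have := x.neg_mem (h.1 i)
      simpa using this
    · have := y.neg_mem (h.2 i)
      simpa using this
    · have := x.add_mem (h.1 i) (h'.1 i)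
      simpa using this
    · have := y.add_mem (h.2 i) (h'.2 i)
      simpa using this

theorem R_iff {x : Submodule (ZMod 2) V2} {y : Submodule (ZMod 3) V3} {q q' : A} :
    R x y q q' ↔ (∀ i, q.1.1 i - q'.1.1 i ∈ x) ∧ (∀ i, q.1.2 i - q'.1.2 i ∈ y) := Iff.rfl

theorem R_mono {x x' : Submodule (ZMod 2) V2} {y y' : Submodule (ZMod 3) V3} (h : x ≤ x')
    (h' : y ≤ y') : R x y ≤ R x' y' := fun _ _ hq => ⟨fun i => h (hq.1 i), fun i => h' (hq.2 i)⟩

theorem R_inf (x x' : Submodule (ZMod 2) V2) (y y' : Submodule (ZMod 3) V3) :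
    R x y ⊓ R x' y' = R (x ⊓ x') (y ⊓ y') := by
  ext q q'
  constructor
  · rintro ⟨h1, h2⟩
    exact ⟨fun i => ⟨h1.1 i, h2.1 i⟩, fun i => ⟨h1.2 i, h2.2 i⟩⟩
  · intro h
    exact ⟨⟨fun i => (h.1 i).1, fun i => (h.2 i).1⟩, ⟨fun i => (h.1 i).2, fun i => (h.2 i).2⟩⟩

/-- The line `l` of the lower plane. -/
abbrev lineL : Submodule (ZMod 2) V2 := Hp 1 1 1

/-- The atom `p` of the upper plane. -/
abbrev atomP : Submodule (ZMod 3) V3 := Hp 0 1 0 ⊓ Hp 0 0 1

theorem mem_lineL {v : V2} : v ∈ lineL ↔ lam v = 0 := by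
  rw [mem_Hp, lam]
  simp

theorem mem_atomP {v : V3} : v ∈ atomP ↔ v 1 = 0 ∧ v 2 = 0 := by
  rw [atomP, Submodule.mem_inf, mem_Hp, mem_Hp]
  simp

theorem lam_sub (v w : V2) : lam (v - w) = lam v - lam w := by
  simp only [lam, Pi.sub_apply]
  ring

theorem lam_add (v w : V2) : lam (v + w) = lam v + lam w := by
  simp only [lam, Pi.add_apply]
  ring

theorem lam_smul (t : ZMod 2) (w : V2) : lam (t • w) = t * lam w := by
  simp only [lam, Pi.smul_apply, smul_eq_mul]
  ring

/-- the two descriptions of the gluing interval -/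
theorem fst_iff (q q' : A) : (∀ i, q.1.1 i - q'.1.1 i ∈ lineL) ↔ ∀ i, q.1.2 i 0 = q'.1.2 i 0 := by
  have e1 : (∀ i, q.1.1 i - q'.1.1 i ∈ lineL) ↔
      (fun i => lam (q.1.1 i)) = fun i => lam (q'.1.1 i) := by
    rw [funext_iff]
    refine forall_congr' fun i => ?_
    rw [mem_lineL, lam_sub, sub_eq_zero]
  rw [e1, ← θ.injective.eq_iff, q.2, q'.2, funext_iff]

theorem R_low {x : Submodule (ZMod 2) V2} (h : x ≤ lineL) : R x atomP = R x ⊥ := by
  apply le_antisymm
  · intro q q' hq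
    refine ⟨hq.1, fun i => ?_⟩
    have h1 := (fst_iff q q').1 (fun i => h (hq.1 i)) i
    have h2 := mem_atomP.1 (hq.2 i)
    rw [Submodule.mem_bot]
    ext j
    fin_cases j
    · simpa [sub_eq_zero] using h1
    · exact h2.1
    · exact h2.2
  · exact R_mono le_rfl bot_le

theorem R_bot (x : Submodule (ZMod 2) V2) : R x ⊥ = R (x ⊓ lineL) atomP := by
  rw [R_low inf_le_right]
  apply le_antisymm
  · intro q q' hq
    refine ⟨fun i => ⟨hq.1 i, ?_⟩, hq.2⟩
    refine (fst_iff q q').2 (fun j => ?_) i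
    have := hq.2 j
    rw [Submodule.mem_bot, sub_eq_zero] at this
    rw [this]
  · exact R_mono inf_le_left le_rfl

/-- `u` is the composition of `s` and `t`. -/
def IsComp {B : Type} (s t u : Setoid B) : Prop := ∀ a b, u a b ↔ ∃ c, s a c ∧ t c b

theorem IsComp.symm {B : Type} {s t u : Setoid B} (h : IsComp s t u) : IsComp t s u := by
  intro a b
  constructor
  · intro hab
    obtain ⟨c, h1, h2⟩ := (h b a).1 (u.symm hab)
    exact ⟨c, t.symm h2, s.symm h1⟩
  · rintro ⟨c, h1, h2⟩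
    exact u.symm ((h b a).2 ⟨c, s.symm h2, t.symm h1⟩)

theorem IsComp.sup {B : Type} {s t u : Setoid B} (h : IsComp s t u) : s ⊔ t = u := by
  apply le_antisymm
  · apply sup_le
    · intro a b hab
      exact (h a b).2 ⟨b, hab, t.refl b⟩
    · intro a b hab
      exact (h a b).2 ⟨a, s.refl a, hab⟩
  · intro a b hab
    obtain ⟨c, h1, h2⟩ := (h a b).1 hab
    exact (s ⊔ t).trans ((le_sup_left : s ≤ s ⊔ t) h1) ((le_sup_right : t ≤ s ⊔ t) h2)

theorem comp_of_le {B : Type} {s t : Setoid B} (h : s ≤ t) : IsComp s t t := by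
  intro a b
  constructor
  · intro hab
    exact ⟨a, s.refl a, hab⟩
  · rintro ⟨c, h1, h2⟩
    exact t.trans (h h1) h2

theorem comp_low (x x' : Submodule (ZMod 2) V2) :
    IsComp (R x atomP) (R x' atomP) (R (x ⊔ x') atomP) := by
  intro q q'
  constructor
  · intro h
    have h1 : ∀ i, ∃ u ∈ x, ∃ w ∈ x', u + w = q.1.1 i - q'.1.1 i := fun i =>
      Submodule.mem_sup.1 (h.1 i)
    choose u hu w hw huw using h1
    let a : ℕ → V2 := fun i => q.1.1 i - u i
    let b : ℕ → V3 := fun i => ![θ (fun i => lam (a i)) i, q.1.2 i 1, q.1.2 i 2]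
    refine ⟨⟨(a, b), ?_⟩, ⟨fun i => ?_, fun i => ?_⟩, ⟨fun i => ?_, fun i => ?_⟩⟩
    · funext i
      rfl
    · simpa [a] using hu i
    · rw [mem_atomP]
      simp [b]
    · have : a i - q'.1.1 i = w i := by
        simp only [a]
        rw [sub_right_comm, ← huw i, add_sub_cancel_left]
      change a i - q'.1.1 i ∈ x'
      rw [this]
      exact hw i
    · have h2 := mem_atomP.1 (h.2 i)
      rw [mem_atomP]
      simpa [b] using h2
  · rintro ⟨c, h1, h2⟩
    exact (R (x ⊔ x') atomP).trans (R_mono le_sup_left le_rfl h1) (R_mono le_sup_right le_rfl h2)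

/-- a vector on which the form takes the value one -/
def e1 : V2 := ![1, 0, 0]

theorem lam_e1 : lam e1 = 1 := by simp [lam, e1]

theorem comp_up (y y' : Submodule (ZMod 3) V3) :
    IsComp (R ⊤ y) (R ⊤ y') (R ⊤ (y ⊔ y')) := by
  intro q q'
  constructor
  · intro h
    have h1 : ∀ i, ∃ u ∈ y, ∃ w ∈ y', u + w = q.1.2 i - q'.1.2 i := fun i =>
      Submodule.mem_sup.1 (h.2 i)
    choose u hu w hw huw using h1
    let b : ℕ → V3 := fun i => q.1.2 i - u i
    let a : ℕ → V2 := fun i => (θ.symm (fun i => b i 0) i) • e1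
    refine ⟨⟨(a, b), ?_⟩, ⟨fun i => trivial, fun i => ?_⟩, ⟨fun i => trivial, fun i => ?_⟩⟩
    · have : (fun i => lam (a i)) = θ.symm (fun i => b i 0) := by
        funext i
        simp only [a]
        rw [lam_smul, lam_e1, mul_one]
      change θ (fun i => lam (a i)) = fun i => b i 0
      rw [this, Equiv.apply_symm_apply]
    · change q.1.2 i - b i ∈ y
      simpa [b] using hu i
    · have : b i - q'.1.2 i = w i := by
        simp only [b]
        rw [sub_right_comm, ← huw i, add_sub_cancel_left]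
      change b i - q'.1.2 i ∈ y'
      rw [this]
      exact hw i
  · rintro ⟨c, h1, h2⟩
    exact (R ⊤ (y ⊔ y')).trans (R_mono le_rfl le_sup_left h1) (R_mono le_rfl le_sup_right h2)

theorem comp_mixed_le {x : Submodule (ZMod 2) V2} (h : x ≤ lineL) (y : Submodule (ZMod 3) V3) :
    IsComp (R x atomP) (R ⊤ y) (R ⊤ y) := by
  apply comp_of_le
  rw [R_low h]
  exact R_mono le_top bot_le

theorem comp_mixed {x : Submodule (ZMod 2) V2} (h : ¬ x ≤ lineL) (y : Submodule (ZMod 3) V3) :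
    IsComp (R x atomP) (R ⊤ y) (R ⊤ (atomP ⊔ y)) := by
  obtain ⟨v, hv, hvl⟩ := Set.not_subset.1 h
  have hv1 : lam v = 1 := by
    have h0 : lam v ≠ 0 := fun e => hvl (mem_lineL.2 e)
    generalize lam v = t at h0 ⊢
    revert h0
    revert t
    decide
  intro q q'
  constructor
  · intro h
    have h1 : ∀ i, ∃ u ∈ atomP, ∃ w ∈ y, u + w = q.1.2 i - q'.1.2 i := fun i =>
      Submodule.mem_sup.1 (h.2 i)
    choose u hu w hw huw using h1
    let b : ℕ → V3 := fun i => q.1.2 i - u i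
    let a : ℕ → V2 := fun i => q.1.1 i + (θ.symm (fun i => b i 0) i - lam (q.1.1 i)) • v
    refine ⟨⟨(a, b), ?_⟩, ⟨fun i => ?_, fun i => ?_⟩, ⟨fun i => trivial, fun i => ?_⟩⟩
    · have : (fun i => lam (a i)) = θ.symm (fun i => b i 0) := by
        funext i
        simp only [a]
        rw [lam_add, lam_smul, hv1, mul_one]
        ring
      change θ (fun i => lam (a i)) = fun i => b i 0
      rw [this, Equiv.apply_symm_apply]
    · have : q.1.1 i - a i = -((θ.symm (fun i => b i 0) i - lam (q.1.1 i)) • v) := by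
        simp only [a]
        abel
      change q.1.1 i - a i ∈ x
      rw [this]
      exact x.neg_mem (x.smul_mem _ hv)
    · change q.1.2 i - b i ∈ atomP
      simpa [b] using hu i
    · have : b i - q'.1.2 i = w i := by
        simp only [b]
        rw [sub_right_comm, ← huw i, add_sub_cancel_left]
      change b i - q'.1.2 i ∈ y
      rw [this]
      exact hw i
  · rintro ⟨c, h1, h2⟩
    exact (R ⊤ (atomP ⊔ y)).trans (R_mono le_top le_sup_left h1) (R_mono le_rfl le_sup_right h2)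

/-- The members of the lattice. -/
def InL (s : Setoid A) : Prop := (∃ x, s = R x atomP) ∨ (∃ y, s = R ⊤ y)

theorem inL_inf_mixed (x : Submodule (ZMod 2) V2) (y : Submodule (ZMod 3) V3) :
    InL (R x atomP ⊓ R ⊤ y) := by
  rw [R_inf, inf_top_eq]
  by_cases h : atomP ≤ y
  · rw [inf_eq_left.2 h]
    exact Or.inl ⟨x, rfl⟩
  · have : atomP ⊓ y = ⊥ := by
      rw [eq_bot_iff]
      rintro v ⟨hv1, hv2⟩
      by_contra hne
      apply h
      intro w hw
      have hv1' := mem_atomP.1 hv1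
      have hw' := mem_atomP.1 hw
      have h0 : v 0 ≠ 0 := by
        intro h0
        apply hne
        rw [Submodule.mem_bot]
        ext j
        fin_cases j
        · exact h0
        · exact hv1'.1
        · exact hv1'.2
      have hwv : w = (w 0 / v 0) • v := by
        ext j
        fin_cases j
        · simp [h0]
        · simp [hw'.1, hv1'.1]
        · simp [hw'.2, hv1'.2]
      rw [hwv]
      exact y.smul_mem _ hv2
    rw [this, R_bot]
    exact Or.inl ⟨_, rfl⟩

theorem inL_inf {s t : Setoid A} (hs : InL s) (ht : InL t) : InL (s ⊓ t) := by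
  rcases hs with ⟨x, rfl⟩ | ⟨y, rfl⟩
  · rcases ht with ⟨x', rfl⟩ | ⟨y', rfl⟩
    · rw [R_inf, inf_idem]
      exact Or.inl ⟨_, rfl⟩
    · exact inL_inf_mixed x y'
  · rcases ht with ⟨x', rfl⟩ | ⟨y', rfl⟩
    · rw [inf_comm]
      exact inL_inf_mixed x' y
    · rw [R_inf, inf_idem]
      exact Or.inr ⟨_, rfl⟩

theorem inL_comp {s t : Setoid A} (hs : InL s) (ht : InL t) : ∃ u, InL u ∧ IsComp s t u := by
  rcases hs with ⟨x, rfl⟩ | ⟨y, rfl⟩
  · rcases ht with ⟨x', rfl⟩ | ⟨y', rfl⟩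
    · exact ⟨_, Or.inl ⟨_, rfl⟩, comp_low x x'⟩
    · by_cases h : x ≤ lineL
      · exact ⟨_, Or.inr ⟨_, rfl⟩, comp_mixed_le h y'⟩
      · exact ⟨_, Or.inr ⟨_, rfl⟩, comp_mixed h y'⟩
  · rcases ht with ⟨x', rfl⟩ | ⟨y', rfl⟩
    · by_cases h : x' ≤ lineL
      · exact ⟨_, Or.inr ⟨_, rfl⟩, (comp_mixed_le h y).symm⟩
      · exact ⟨_, Or.inr ⟨_, rfl⟩, (comp_mixed h y).symm⟩
    · exact ⟨_, Or.inr ⟨_, rfl⟩, comp_up y y'⟩

theorem inL_sup {s t : Setoid A} (hs : InL s) (ht : InL t) : InL (s ⊔ t) := by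
  obtain ⟨u, hu, hc⟩ := inL_comp hs ht
  rw [hc.sup]
  exact hu

/-- The finite lattice, as a sublattice of the lattice of equivalence relations of `A`. -/
def L : Sublattice (Setoid A) where
  carrier := {s | InL s}
  supClosed' := fun _ hs _ ht => inL_sup hs ht
  infClosed' := fun _ hs _ ht => inL_inf hs ht

theorem mem_L {s : Setoid A} : s ∈ L ↔ InL s := Iff.rfl

instance finite_sub (K : Type) [Field K] [Finite K] : Finite (Submodule K (Fin 3 → K)) :=
  Finite.of_injective (fun s : Submodule K (Fin 3 → K) => (s : Set (Fin 3 → K)))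
    SetLike.coe_injective

theorem finite_L : Finite L := by
  have h : ((L : Set (Setoid A))).Finite := by
    have : (L : Set (Setoid A)) = Set.range (fun x => R x atomP) ∪ Set.range (fun y => R ⊤ y) := by
      ext s
      constructor
      · rintro (⟨x, rfl⟩ | ⟨y, rfl⟩)
        · exact Or.inl ⟨x, rfl⟩
        · exact Or.inr ⟨y, rfl⟩
      · rintro (⟨x, rfl⟩ | ⟨y, rfl⟩)
        · exact Or.inl ⟨x, rfl⟩
        · exact Or.inr ⟨y, rfl⟩
    rw [this]
    exact (Set.finite_range _).union (Set.finite_range _)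
  exact h.to_subtype

/-- The lower plane inside `L`. -/
def lo : LatticeHom (Submodule (ZMod 2) V2) L where
  toFun x := ⟨R x atomP, Or.inl ⟨x, rfl⟩⟩
  map_sup' x x' := Subtype.ext (comp_low x x').sup.symm
  map_inf' x x' := by
    apply Subtype.ext
    change R (x ⊓ x') atomP = R x atomP ⊓ R x' atomP
    rw [R_inf, inf_idem]

/-- The upper plane inside `L`. -/
def up : LatticeHom (Submodule (ZMod 3) V3) L where
  toFun y := ⟨R ⊤ y, Or.inr ⟨y, rfl⟩⟩
  map_sup' y y' := Subtype.ext (comp_up y y').sup.symm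
  map_inf' y y' := by
    apply Subtype.ext
    change R ⊤ (y ⊓ y') = R ⊤ y ⊓ R ⊤ y'
    rw [R_inf, inf_idem]

theorem lo_top : lo ⊤ = up atomP := rfl

theorem lo_line : lo lineL = up ⊥ := by
  apply Subtype.ext
  change R lineL atomP = R ⊤ ⊥
  rw [R_bot, top_inf_eq]

theorem lo_ne : lo ⊤ ≠ lo lineL := by
  intro h
  have h1 : R ⊤ atomP = R lineL atomP := congrArg Subtype.val h
  let b0 : ℕ → V3 := fun i => ![θ (fun _ => lam 0) i, 0, 0]
  let b1 : ℕ → V3 := fun i => ![θ (fun _ => lam e1) i, 0, 0]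
  let q0 : A := ⟨(fun _ => 0, b0), by funext i; rfl⟩
  let q1 : A := ⟨(fun _ => e1, b1), by funext i; rfl⟩
  have h2 : R ⊤ atomP q1 q0 := by
    refine ⟨fun i => trivial, fun i => ?_⟩
    rw [mem_atomP]
    simp [q0, q1, b0, b1]
  rw [h1] at h2
  have h3 : e1 - 0 ∈ lineL := h2.1 0
  rw [mem_lineL, sub_zero, lam_e1] at h3
  exact one_ne_zero h3

/-- The inclusion of `L` is a representation of type one. -/
theorem incl_comp (x y : L) (a b : A) :
    ((x ⊔ y : L) : Setoid A) a b ↔ ∃ c : A, (x : Setoid A) a c ∧ (y : Setoid A) c b := by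
  obtain ⟨u, _, hc⟩ := inL_comp x.2 y.2
  have : ((x ⊔ y : L) : Setoid A) = u := by
    rw [Sublattice.coe_sup]
    exact hc.sup
  rw [this]
  exact hc a b

end Pool.Agent.Lib.MP_6afe75_al
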